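import Mathlib

/-!
# The determinants of the matrices `1 / (1 - a i * a j)`
-/

set_option autoImplicit false

namespace Pool.Agent.H3.Simp

open Matrix

/-- The matrix `1 / (1 - a i * a j)`. -/
def sz {k : ℕ} (a : Fin k → ℚ) : Matrix (Fin k) (Fin k) ℚ :=
  Matrix.of fun i j => 1 / (1 - a i * a j)

theorem det_sz_succ {k : ℕ} (a : Fin (k + 1) → ℚ) (h : ∀ i j, 1 - a i * a j ≠ 0) :
    (sz a).det = 1 / (1 - a 0 * a 0) *
      (∏ i : Fin k, (a i.succ - a 0) / (1 - a i.succ * a 0)) ^ 2 *
        (sz fun i : Fin k => a i.succ).det := by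
  set B : Matrix (Fin (k + 1)) (Fin (k + 1)) ℚ := Matrix.of fun i j =>
    if i = 0 then sz a 0 j else sz a i j - sz a i 0 / sz a 0 0 * sz a 0 j with hB
  have h00 : sz a 0 0 ≠ 0 := by
    simp only [sz, of_apply]
    exact one_div_ne_zero (h 0 0)
  have h1 : (sz a).det = B.det := by
    refine det_eq_of_forall_row_eq_smul_add_const
      (fun i => if i = 0 then 0 else sz a i 0 / sz a 0 0) 0 (by simp) fun i j => ?_
    by_cases hi : i = 0
    · simp [hB, hi]
    · simp only [hB, hi, of_apply, if_false, if_true]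
      ring
  rw [h1, det_succ_column_zero, Fin.sum_univ_succ]
  have h2 : ∀ i : Fin k, B i.succ 0 = 0 := by
    intro i
    simp only [hB, of_apply, Fin.succ_ne_zero, if_false]
    rw [div_mul_cancel₀ _ h00, sub_self]
  have h3 : B.submatrix (Fin.succAbove 0) Fin.succ = Matrix.of fun i j : Fin k =>
      (a i.succ - a 0) / (1 - a i.succ * a 0) *
        (Matrix.of fun i j : Fin k => (a j.succ - a 0) / (1 - a j.succ * a 0) *
          (sz fun i : Fin k => a i.succ) i j) i j := by
    ext i j
    simp only [hB, submatrix_apply, of_apply, Fin.succAbove_zero, Fin.succ_ne_zero, if_false, sz]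
    have e1 := h i.succ j.succ
    have e2 := h i.succ 0
    have e3 := h 0 j.succ
    have e4 := h 0 0
    have e5 : 1 - a j.succ * a 0 ≠ 0 := h j.succ 0
    field_simp
    ring
  rw [h3, det_mul_column, det_mul_row]
  simp only [h2, mul_zero, zero_mul, Finset.sum_const_zero, add_zero, Fin.val_zero, pow_zero,
    one_mul]
  have h4 : B 0 0 = 1 / (1 - a 0 * a 0) := by simp [hB, sz]
  rw [h4]
  ring

/-- For points `a i` such that all `1 - a i ^ 2` are squares the determinant is a square. -/
theorem det_sz_sq : ∀ (k : ℕ) (a q : Fin k → ℚ), (∀ i j, 1 - a i * a j ≠ 0) →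
    (∀ i, 1 - a i * a i = q i ^ 2) → Function.Injective a → ∃ r : ℚ, r ≠ 0 ∧ (sz a).det = r ^ 2 := by
  intro k
  induction k with
  | zero =>
    intro a q _ _ _
    exact ⟨1, one_ne_zero, by simp⟩
  | succ k ih =>
    intro a q h hq hinj
    obtain ⟨r, hr, hr2⟩ := ih (fun i => a i.succ) (fun i => q i.succ)
      (fun i j => h i.succ j.succ) (fun i => hq i.succ)
      (fun i j hij => Fin.succ_injective _ (hinj hij))
    have hq0 : q 0 ≠ 0 := by
      intro h0
      have := hq 0
      rw [h0, zero_pow two_ne_zero] at this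
      exact h 0 0 this
    refine ⟨1 / q 0 * (∏ i : Fin k, (a i.succ - a 0) / (1 - a i.succ * a 0)) * r, ?_, ?_⟩
    · refine mul_ne_zero (mul_ne_zero (one_div_ne_zero hq0) ?_) hr
      refine Finset.prod_ne_zero_iff.2 fun i _ => div_ne_zero ?_ (h i.succ 0)
      exact sub_ne_zero.2 fun he => Fin.succ_ne_zero i (hinj he)
    · rw [det_sz_succ a h, hr2, hq 0]
      ring

end Pool.Agent.H3.Simp
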