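import Mathlib

/-!
# Infinitely many points on the curve `s ^ 2 - b ^ 2 = u ^ 2`, `s ^ 2 - e ^ 2 = w ^ 2`
-/

set_option autoImplicit false

namespace Pool.Agent.H3.Simp

/-- Repeated duplication of an integral point: all of `S`, `U`, `W` are odd and `T` is divisible by
a large power of `2`. -/
theorem dup_int (n : ℕ) : ∃ S U W T : ℤ, S ^ 2 - 88454025 * T ^ 2 = U ^ 2 ∧
    S ^ 2 - 147744025 * T ^ 2 = W ^ 2 ∧ Odd S ∧ Odd U ∧ Odd W ∧
      ∃ R : ℤ, Odd R ∧ T = 2 ^ (n + 3) * R := by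
  induction n with
  | zero =>
    refine ⟨69964066441, 44489307241, 4994755991, 5741304, by norm_num, by norm_num, by decide,
      by decide, by decide, 717663, by decide, by norm_num⟩
  | succ n ih =>
    obtain ⟨S, U, W, T, h1, h2, hS, hU, hW, R, hR, hT⟩ := ih
    refine ⟨S ^ 4 - 88454025 * 147744025 * T ^ 4,
      S ^ 4 - 2 * 88454025 * S ^ 2 * T ^ 2 + 88454025 * 147744025 * T ^ 4,
      S ^ 4 - 2 * 147744025 * S ^ 2 * T ^ 2 + 88454025 * 147744025 * T ^ 4,
      2 * S * U * W * T, ?_, ?_, ?_, ?_, ?_, S * U * W * R, ?_, ?_⟩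
    · have e : (2 * S * U * W * T) ^ 2 = 4 * S ^ 2 * (S ^ 2 - 88454025 * T ^ 2) *
          (S ^ 2 - 147744025 * T ^ 2) * T ^ 2 := by rw [h1, h2]; ring
      rw [e]
      ring
    · have e : (2 * S * U * W * T) ^ 2 = 4 * S ^ 2 * (S ^ 2 - 88454025 * T ^ 2) *
          (S ^ 2 - 147744025 * T ^ 2) * T ^ 2 := by rw [h1, h2]; ring
      rw [e]
      ring
    · have : Even T := ⟨2 ^ (n + 2) * R, by rw [hT]; ring⟩
      exact (hS.pow).sub_even ((this.pow_of_ne_zero (by norm_num)).mul_left _)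
    · have : Even T := ⟨2 ^ (n + 2) * R, by rw [hT]; ring⟩
      have a1 : Even (2 * 88454025 * S ^ 2 * T ^ 2) := (this.pow_of_ne_zero (by norm_num)).mul_left _
      have a2 : Even (88454025 * 147744025 * T ^ 4) := (this.pow_of_ne_zero (by norm_num)).mul_left _
      exact ((hS.pow).sub_even a1).add_even a2
    · have : Even T := ⟨2 ^ (n + 2) * R, by rw [hT]; ring⟩
      have a1 : Even (2 * 147744025 * S ^ 2 * T ^ 2) := (this.pow_of_ne_zero (by norm_num)).mul_left _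
      have a2 : Even (88454025 * 147744025 * T ^ 4) := (this.pow_of_ne_zero (by norm_num)).mul_left _
      exact ((hS.pow).sub_even a1).add_even a2
    · exact ((hS.mul hU).mul hW).mul hR
    · rw [hT]
      ring

/-- If `2 ^ a * R` divides like an odd number, then the exponents agree. -/
theorem exp_unique {a b : ℕ} {x y : ℤ} (hx : Odd x) (hy : Odd y)
    (h : 2 ^ a * x = 2 ^ b * y) : a = b := by
  have key : ∀ {a b : ℕ} {x y : ℤ}, Odd x → 2 ^ a * x = 2 ^ b * y → b ≤ a := by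
    intro a b x y hx h
    by_contra hlt
    push Not at hlt
    obtain ⟨c, rfl⟩ := Nat.exists_eq_add_of_lt hlt
    have h2 : (2 : ℤ) ^ a ≠ 0 := pow_ne_zero _ two_ne_zero
    have h3 : x = 2 * (2 ^ c * y) := by
      apply mul_left_cancel₀ h2
      rw [h]
      ring
    rw [h3] at hx
    exact (Int.not_even_iff_odd.2 hx) (even_two_mul _)
  exact le_antisymm (key hy h.symm) (key hx h)

/-- The points with rational coordinates. -/
theorem dup_rat (n : ℕ) : ∃ s u w : ℚ, 0 < s ∧ w ≠ 0 ∧ s ^ 2 - 88454025 = u ^ 2 ∧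
    s ^ 2 - 147744025 = w ^ 2 ∧
      ∃ S R : ℤ, Odd S ∧ Odd R ∧ s = S / (2 ^ (n + 3) * R) := by
  obtain ⟨S, U, W, T, h1, h2, hS, hU, hW, R, hR, hT⟩ := dup_int n
  have hR0 : R ≠ 0 := by rintro rfl; exact absurd hR (by decide)
  have hS0 : S ≠ 0 := by rintro rfl; exact absurd hS (by decide)
  have hW0 : W ≠ 0 := by rintro rfl; exact absurd hW (by decide)
  have hT0 : T ≠ 0 := by
    rw [hT]
    exact mul_ne_zero (pow_ne_zero _ two_ne_zero) hR0
  have hTq : (T : ℚ) ≠ 0 := by exact_mod_cast hT0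
  have hSq : (S : ℚ) ≠ 0 := by exact_mod_cast hS0
  have hWq : (W : ℚ) ≠ 0 := by exact_mod_cast hW0
  have e1 : (S : ℚ) ^ 2 - 88454025 * T ^ 2 = U ^ 2 := by exact_mod_cast h1
  have e2 : (S : ℚ) ^ 2 - 147744025 * T ^ 2 = W ^ 2 := by exact_mod_cast h2
  have e3 : ((S : ℚ) / T) ^ 2 - 88454025 = (U / T) ^ 2 := by
    rw [div_pow, div_pow, ← e1]
    field_simp
  have e4 : ((S : ℚ) / T) ^ 2 - 147744025 = (W / T) ^ 2 := by
    rw [div_pow, div_pow, ← e2]
    field_simp
  have hTR : (T : ℚ) = 2 ^ (n + 3) * R := by exact_mod_cast hT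
  rcases lt_or_gt_of_ne (div_ne_zero hSq hTq) with h | h
  · refine ⟨-((S : ℚ) / T), U / T, W / T, by linarith, div_ne_zero hWq hTq, ?_, ?_,
      -S, R, hS.neg, hR, ?_⟩
    · rw [neg_sq]; exact e3
    · rw [neg_sq]; exact e4
    · rw [← hTR]
      push_cast
      ring
  · exact ⟨(S : ℚ) / T, U / T, W / T, h, div_ne_zero hWq hTq, e3, e4, S, R, hS, hR, by rw [← hTR]⟩

/-- The values of `s` are different. -/
theorem dup_inj {m n : ℕ} {S R S' R' : ℤ} (hS : Odd S) (hR : Odd R) (hS' : Odd S')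
    (hR' : Odd R') (h : (S : ℚ) / (2 ^ (m + 3) * R) = S' / (2 ^ (n + 3) * R')) : m = n := by
  have hR0 : (R : ℚ) ≠ 0 := by
    have : R ≠ 0 := by rintro rfl; exact absurd hR (by decide)
    exact_mod_cast this
  have hR0' : (R' : ℚ) ≠ 0 := by
    have : R' ≠ 0 := by rintro rfl; exact absurd hR' (by decide)
    exact_mod_cast this
  rw [div_eq_div_iff (mul_ne_zero (by positivity) hR0) (mul_ne_zero (by positivity) hR0')] at h
  have h2 : S * (2 ^ (n + 3) * R') = S' * (2 ^ (m + 3) * R) := by exact_mod_cast h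
  have h3 := exp_unique (hS.mul hR') (hS'.mul hR) (a := n + 3) (b := m + 3) (by
    calc (2 : ℤ) ^ (n + 3) * (S * R') = S * (2 ^ (n + 3) * R') := by ring
      _ = S' * (2 ^ (m + 3) * R) := h2
      _ = 2 ^ (m + 3) * (S' * R) := by ring)
  omega

end Pool.Agent.H3.Simp
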