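import Pool.Agent.H3.Simp.Pts

/-!
# The contents of the faces
-/

set_option autoImplicit false

namespace Pool.Agent.H3.Simp

open Matrix

variable {a q : ℕ → ℚ}

theorem map_sz (h : Adm a q) (n : ℕ) {m : ℕ} (g : Fin m → Fin (n + 1)) :
    (Matrix.of fun i j : Fin m => inner ℝ (vv a q n (g i)) (vv a q n (g j))) =
      (sz fun i : Fin m => a (g i)).map (Rat.castHom ℝ) := by
  ext i j
  simp only [of_apply, map_apply, sz, eq_ratCast]
  exact inner_vv h n (g i) (g j)

theorem det_map_sz (h : Adm a q) (n : ℕ) {m : ℕ} (g : Fin m → Fin (n + 1))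
    (hg : Function.Injective g) : ∃ r : ℚ, r ≠ 0 ∧
      (Matrix.of fun i j : Fin m => inner ℝ (vv a q n (g i)) (vv a q n (g j))).det = (r : ℝ) ^ 2 := by
  obtain ⟨r, hr, hr2⟩ := det_sz_sq m (fun i => a (g i)) (fun i => q (g i))
    (fun i j => h.ne _ _) (fun i => h.sq _) (fun i j hij => hg (Fin.ext (h.inj hij)))
  refine ⟨r, hr, ?_⟩
  rw [map_sz h, ← RingHom.mapMatrix_apply, ← RingHom.map_det, hr2]
  simp

/-- the matrix with entries `K - 1` -/
theorem det_sub_one (h : Adm a q) (n : ℕ) {m : ℕ} (g : Fin m → Fin (n + 1)) :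
    (Matrix.of fun i j : Fin m => inner ℝ (vv a q n (g i)) (vv a q n (g j)) - 1).det =
      ((∏ i, a (g i) : ℚ) : ℝ) ^ 2 *
        (Matrix.of fun i j : Fin m => inner ℝ (vv a q n (g i)) (vv a q n (g j))).det := by
  have e : (Matrix.of fun i j : Fin m => inner ℝ (vv a q n (g i)) (vv a q n (g j)) - 1) =
      Matrix.of fun i j : Fin m => (a (g i) : ℝ) * (Matrix.of fun i j : Fin m => (a (g j) : ℝ) *
        (Matrix.of fun i j : Fin m => inner ℝ (vv a q n (g i)) (vv a q n (g j))) i j) i j := by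
    ext i j
    simp only [of_apply]
    rw [inner_vv h]
    have h1 : (1 / (1 - a (g i) * a (g j)) : ℚ) - 1 =
        a (g i) * (a (g j) * (1 / (1 - a (g i) * a (g j)))) := by
      have := h.ne (g i) (g j)
      field_simp
      ring
    exact_mod_cast h1
  rw [e, det_mul_column, det_mul_row]
  push_cast
  ring

/-- faces through the origin -/
theorem face_zero (h : Adm a q) (n : ℕ) {k : ℕ} (f : Fin (k + 1) → Fin (n + 2))
    (hf : Function.Injective f) (h0 : f 0 = 0) :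
    ∃ r : ℚ, gdet (vp a q n ∘ f) = (r : ℝ) ^ 2 := by
  have hne : ∀ i : Fin k, f i.succ ≠ 0 := fun i hi =>
    Fin.succ_ne_zero i (hf (hi.trans h0.symm))
  obtain ⟨r, _, hr⟩ := det_map_sz h n (fun i : Fin k => (f i.succ).pred (hne i))
    (fun i j hij => Fin.succ_injective _ (hf (Fin.pred_inj.1 hij)))
  refine ⟨r, ?_⟩
  rw [← hr]
  unfold gdet
  congr 1
  ext i j
  simp only [of_apply, Function.comp_apply]
  rw [h0, vp_zero, sub_zero, sub_zero, ← vp_succ, ← vp_succ, Fin.succ_pred, Fin.succ_pred]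

/-- faces through the vertex `1` which do not contain the origin -/
theorem face_one (h : Adm a q) (n : ℕ) {k : ℕ} (f : Fin (k + 1) → Fin (n + 2))
    (hf : Function.Injective f) (h1 : f 0 = 1) (hno : ∀ i, f i ≠ 0) :
    ∃ r : ℚ, gdet (vp a q n ∘ f) = (r : ℝ) ^ 2 := by
  obtain ⟨r, _, hr⟩ := det_map_sz h n (fun i : Fin k => (f i.succ).pred (hno _))
    (fun i j hij => Fin.succ_injective _ (hf (Fin.pred_inj.1 hij)))
  refine ⟨(∏ i : Fin k, a ((f i.succ).pred (hno _))) * r, ?_⟩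
  rw [Rat.cast_mul, mul_pow, ← hr, ← det_sub_one h]
  unfold gdet
  congr 1
  ext i j
  simp only [of_apply, Function.comp_apply]
  have e1 : f 0 = (0 : Fin (n + 1)).succ := by rw [h1]; rfl
  have e2 : ∀ l, vp a q n (f l) = vv a q n ((f l).pred (hno l)) := fun l => by
    rw [← vp_succ, Fin.succ_pred]
  rw [e1, vp_succ, e2, e2, inner_sub_left, inner_sub_right, inner_sub_right,
    inner_vv h n 0, inner_vv h n _ 0, inner_vv h n 0 0]
  simp only [Fin.val_zero, h.zero, zero_mul, mul_zero, sub_zero, div_one, Rat.cast_one]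
  ring

/-- faces which do not contain the origin -/
theorem face_gen (h : Adm a q) (n : ℕ) {k : ℕ} (f : Fin (k + 1) → Fin (n + 2))
    (hf : Function.Injective f) (hno : ∀ i, f i ≠ 0) :
    ∃ r : ℚ, gdet (vp a q n ∘ f) =
      ((r ^ 2 * (1 - (∏ i, a ((f i).pred (hno i))) ^ 2) : ℚ) : ℝ) := by
  obtain ⟨r, _, hr⟩ := det_map_sz h n (fun i : Fin (k + 1) => (f i).pred (hno _))
    (fun i j hij => hf (Fin.pred_inj.1 hij))
  refine ⟨r, ?_⟩
  have e2 : vp a q n ∘ f = fun i => vv a q n ((f i).pred (hno i)) := by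
    funext l
    rw [Function.comp_apply, ← vp_succ, Fin.succ_pred]
  have h1 := gt_eq (vp a q n ∘ f) (-1)
  have h2 : gt (vp a q n ∘ f) 0 = (r : ℝ) ^ 2 := by
    rw [← hr, e2]
    unfold gt
    congr 1
    ext i j
    simp only [of_apply, add_zero]
  have h3 : gt (vp a q n ∘ f) (-1) =
      ((∏ i, a ((f i).pred (hno i)) : ℚ) : ℝ) ^ 2 * (r : ℝ) ^ 2 := by
    rw [← hr, ← det_sub_one h, e2]
    rfl
  rw [h2, h3] at h1
  push_cast at h1 ⊢
  linarith

/-- All faces through one of the vertices `0`, `1`. -/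
theorem face_good (h : Adm a q) (n : ℕ) {k : ℕ} (f : Fin (k + 1) → Fin (n + 2))
    (hf : Function.Injective f) (h01 : ∃ i, f i = 0 ∨ f i = 1) :
    ∃ r : ℚ, gdet (vp a q n ∘ f) = (r : ℝ) ^ 2 := by
  by_cases hz : ∃ i, f i = 0
  · obtain ⟨i, hi⟩ := hz
    obtain ⟨r, hr⟩ := face_zero h n (f ∘ Equiv.swap 0 i) (hf.comp (Equiv.injective _))
      (by simp [hi])
    refine ⟨r, ?_⟩
    rw [← hr, ← Function.comp_assoc, gdet_perm]
  · push Not at hz
    obtain ⟨i, hi⟩ := h01
    have hi' := hi.resolve_left (hz i)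
    obtain ⟨r, hr⟩ := face_one h n (f ∘ Equiv.swap 0 i) (hf.comp (Equiv.injective _))
      (by simp [hi']) (fun j => hz _)
    refine ⟨r, ?_⟩
    rw [← hr, ← Function.comp_assoc, gdet_perm]

end Pool.Agent.H3.Simp
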