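import Mathlib

/-!
# Gram determinants of the edge vectors of a simplex

`gdet x` is the square of `k!` times the content of the simplex with the vertices `x 0, ..., x k`.
-/

set_option autoImplicit false

namespace Pool.Agent.H3.Simp

open Matrix

variable {E : Type*} [NormedAddCommGroup E] [InnerProductSpace ℝ E]

/-- The Gram determinant of the edge vectors at `x 0`. -/
noncomputable def gdet {k : ℕ} (x : Fin (k + 1) → E) : ℝ :=
  Matrix.det (Matrix.of fun i j : Fin k => inner ℝ (x i.succ - x 0) (x j.succ - x 0))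

/-- The determinant of the matrix of all inner products, increased by `t`. -/
noncomputable def gt {k : ℕ} (x : Fin (k + 1) → E) (t : ℝ) : ℝ :=
  Matrix.det (Matrix.of fun i j : Fin (k + 1) => inner ℝ (x i) (x j) + t)

/-- The same matrix after the row and column operations. -/
noncomputable def gc {k : ℕ} (x : Fin (k + 1) → E) (t : ℝ) :
    Matrix (Fin (k + 1)) (Fin (k + 1)) ℝ :=
  Matrix.of fun i j : Fin (k + 1) => inner ℝ (if i = 0 then x 0 else x i - x 0)
    (if j = 0 then x 0 else x j - x 0) + (if i = 0 ∧ j = 0 then t else 0)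

theorem gt_eq_gc {k : ℕ} (x : Fin (k + 1) → E) (t : ℝ) : gt x t = (gc x t).det := by
  unfold gt
  set B : Matrix (Fin (k + 1)) (Fin (k + 1)) ℝ := Matrix.of fun i j : Fin (k + 1) =>
    inner ℝ (if i = 0 then x 0 else x i - x 0) (x j) + (if i = 0 then t else 0) with hB
  have h1 : (Matrix.of fun i j : Fin (k + 1) => inner ℝ (x i) (x j) + t).det = B.det := by
    refine det_eq_of_forall_row_eq_smul_add_const (fun i => if i = 0 then 0 else 1) 0 (by simp)
      fun i j => ?_
    by_cases hi : i = 0
    · simp [hB, hi]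
    · simp only [hB, hi, of_apply, if_false, if_true, inner_sub_left]
      ring
  rw [h1, ← det_transpose B, ← det_transpose (gc x t)]
  refine det_eq_of_forall_row_eq_smul_add_const (fun i => if i = 0 then 0 else 1) 0 (by simp)
    fun j i => ?_
  by_cases hj : j = 0
  · by_cases hi : i = 0
    · simp [hB, gc, hi, hj]
    · simp [hB, gc, hi, hj]
  · by_cases hi : i = 0
    · simp only [hB, gc, hi, hj, of_apply, if_false, if_true, transpose_apply, inner_sub_right,
        and_false, and_true, and_self]
      ring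
    · simp only [hB, gc, hi, hj, of_apply, if_false, if_true, transpose_apply, inner_sub_right,
        and_false, and_true, and_self]
      ring

theorem gt_eq {k : ℕ} (x : Fin (k + 1) → E) (t : ℝ) : gt x t = gt x 0 + t * gdet x := by
  rw [gt_eq_gc, gt_eq_gc, det_succ_row_zero, det_succ_row_zero, Fin.sum_univ_succ,
    Fin.sum_univ_succ]
  have h1 : ∀ s : ℝ, (gc x s).submatrix Fin.succ (Fin.succAbove 0) =
      Matrix.of fun i j : Fin k => inner ℝ (x i.succ - x 0) (x j.succ - x 0) := by
    intro s
    ext i j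
    simp [gc, Fin.succ_ne_zero]
  have h2 : ∀ j : Fin k, (gc x t).submatrix Fin.succ (Fin.succAbove j.succ) =
      (gc x 0).submatrix Fin.succ (Fin.succAbove j.succ) := by
    intro j
    ext i l
    simp [gc, Fin.succ_ne_zero]
  have h3 : ∀ j : Fin k, gc x t 0 j.succ = gc x 0 0 j.succ := by
    intro j
    simp [gc, Fin.succ_ne_zero]
  have h4 : gc x t 0 0 = gc x 0 0 0 + t := by simp [gc]
  rw [h1, h1, h4]
  have h5 : ∑ j : Fin k, (-1 : ℝ) ^ ((j.succ : Fin (k + 1)) : ℕ) * gc x t 0 j.succ *
        ((gc x t).submatrix Fin.succ (Fin.succAbove j.succ)).det =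
      ∑ j : Fin k, (-1 : ℝ) ^ ((j.succ : Fin (k + 1)) : ℕ) * gc x 0 0 j.succ *
        ((gc x 0).submatrix Fin.succ (Fin.succAbove j.succ)).det :=
    Finset.sum_congr rfl fun j _ => by rw [h2, h3]
  rw [h5]
  unfold gdet
  simp only [Fin.val_zero, pow_zero, one_mul]
  ring

theorem gt_perm {k : ℕ} (x : Fin (k + 1) → E) (σ : Equiv.Perm (Fin (k + 1))) (t : ℝ) :
    gt (x ∘ σ) t = gt x t := by
  unfold gt
  rw [← det_submatrix_equiv_self σ (Matrix.of fun i j : Fin (k + 1) => inner ℝ (x i) (x j) + t)]
  rfl

/-- The Gram determinant does not depend on the order of the vertices. -/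
theorem gdet_perm {k : ℕ} (x : Fin (k + 1) → E) (σ : Equiv.Perm (Fin (k + 1))) :
    gdet (x ∘ σ) = gdet x := by
  have h1 := gt_eq (x ∘ σ) 1
  have h2 := gt_eq x 1
  rw [gt_perm, gt_perm] at h1
  linarith

end Pool.Agent.H3.Simp
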