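import Pool.Agent.H3.Simp.Gram

/-!
# Four-dimensional orthoschemes with 25 rational contents

The consecutive edges have the lengths `5460`, `9405`, `7700`, `w`, where `s ^ 2 - 9405 ^ 2 = u ^ 2`
and `s ^ 2 - 12155 ^ 2 = w ^ 2` for rational numbers `s`, `u`, `w`.
-/

set_option autoImplicit false

namespace Pool.Agent.H3.Simp

open Matrix

theorem det_min {k : ℕ} (c : Fin (k + 1) → ℝ) :
    (Matrix.of fun i j : Fin (k + 1) => c (min i j)).det =
      c 0 * ∏ i : Fin k, (c i.succ - c i.castSucc) := by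
  set B : Matrix (Fin (k + 1)) (Fin (k + 1)) ℝ := Matrix.of fun i j =>
    if i ≤ j then (if h : i = 0 then c 0 else c i - c (i.pred h).castSucc) else 0 with hB
  have h1 : (Matrix.of fun i j : Fin (k + 1) => c (min i j)).det = B.det := by
    refine det_eq_of_forall_row_eq_smul_add_pred (fun _ => 1) (fun j => ?_) (fun i j => ?_)
    · simp [hB]
    · simp only [hB, of_apply, one_mul]
      by_cases h : i.succ ≤ j
      · have h2 : i.castSucc ≤ j := (Fin.castSucc_lt_succ).le.trans h
        rw [if_pos h, min_eq_left h, min_eq_left h2, dif_neg (Fin.succ_ne_zero i), Fin.pred_succ]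
        ring
      · have h2 : j ≤ i.castSucc := by
          rw [not_le, Fin.lt_def] at h
          rw [Fin.le_def]
          simp only [Fin.val_succ, Fin.val_castSucc] at h ⊢
          omega
        have h3 : j ≤ i.succ := (not_le.1 h).le
        rw [if_neg h, min_eq_right h3, min_eq_right h2, zero_add]
  rw [h1, det_of_isUpperTriangular, Fin.prod_univ_succ]
  · simp only [hB, of_apply, le_refl, if_true]
    congr 1
  · intro i j hij
    simp only [id] at hij
    simp only [hB, of_apply, if_neg (not_le.2 hij)]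

/-- the squares of the distances from `0` -/
def AA (s : ℚ) : Fin 5 → ℚ := ![0, 29811600, 118265625, 177555625, 29811600 + s ^ 2]

/-- the consecutive edges -/
def xx (w : ℚ) : Fin 4 → ℚ := ![5460, 9405, 7700, w]

/-- The vertices. -/
noncomputable def po (w : ℚ) (i : Fin 5) : EuclideanSpace ℝ (Fin 4) :=
  WithLp.toLp 2 fun j => if j.castSucc < i then ((xx w j : ℚ) : ℝ) else 0

theorem inner_po {s w : ℚ} (hw : s ^ 2 - 147744025 = w ^ 2) (i j : Fin 5) :
    inner ℝ (po w i) (po w j) = ((AA s (min i j) : ℚ) : ℝ) := by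
  have hw' : (s : ℝ) ^ 2 - 147744025 = (w : ℝ) ^ 2 := by exact_mod_cast hw
  rw [PiLp.inner_apply, Fin.sum_univ_four]
  simp only [RCLike.inner_apply, conj_trivial]
  fin_cases i <;> fin_cases j <;>
    first
      | (simp [po, AA, xx, Fin.lt_def]; done)
      | (simp [po, AA, xx, Fin.lt_def]; norm_num; done)
      | (simp [po, AA, xx, Fin.lt_def]; linarith)

/-- The nine differences which are squares. -/
theorem AA_sq {s u w : ℚ} (hu : s ^ 2 - 88454025 = u ^ 2) (hw : s ^ 2 - 147744025 = w ^ 2)
    {i j : Fin 5} (h : i < j) (h04 : ¬ (i = 0 ∧ j = 4)) :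
    ∃ r : ℚ, AA s j - AA s i = r ^ 2 := by
  fin_cases i <;> fin_cases j <;> first
    | (exact absurd h (by decide))
    | (exact absurd ⟨rfl, rfl⟩ h04)
    | (refine ⟨5460, ?_⟩; norm_num [AA]; done)
    | (refine ⟨10875, ?_⟩; norm_num [AA]; done)
    | (refine ⟨13325, ?_⟩; norm_num [AA]; done)
    | (refine ⟨9405, ?_⟩; norm_num [AA]; done)
    | (refine ⟨12155, ?_⟩; norm_num [AA]; done)
    | (refine ⟨7700, ?_⟩; norm_num [AA]; done)
    | (refine ⟨s, ?_⟩; simp [AA]; done)
    | (refine ⟨u, ?_⟩; simp [AA]; linarith)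
    | (refine ⟨w, ?_⟩; simp [AA]; linarith)

theorem gdet_po_mono {s u w : ℚ} (hu : s ^ 2 - 88454025 = u ^ 2)
    (hw : s ^ 2 - 147744025 = w ^ 2) {k : ℕ} (g : Fin (k + 1) → Fin 5) (hg : StrictMono g)
    (h04 : Set.range g ≠ {0, 4}) : ∃ r : ℚ, gdet (po w ∘ g) = (r : ℝ) ^ 2 := by
  have hcon : ∀ i : Fin k, ∃ r : ℚ, AA s (g i.succ) - AA s (g i.castSucc) = r ^ 2 := by
    intro i
    refine AA_sq hu hw (hg Fin.castSucc_lt_succ) fun h => h04 ?_
    have h1 : i.castSucc = 0 := by
      by_contra hne
      have := hg (Fin.pos_iff_ne_zero.2 hne)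
      rw [h.1] at this
      exact absurd this (by simp)
    have h2 : i.succ = Fin.last k := by
      by_contra hne
      have := hg (Fin.lt_last_iff_ne_last.2 hne)
      rw [h.2] at this
      exact absurd this (by
        rw [not_lt, Fin.le_def]
        have := (g (Fin.last k)).2
        have e : ((4 : Fin 5) : ℕ) = 4 := rfl
        omega)
    ext x
    simp only [Set.mem_range, Set.mem_insert_iff, Set.mem_singleton_iff]
    constructor
    · rintro ⟨y, rfl⟩
      have hy : y = i.castSucc ∨ y = i.succ := by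
        have e1 := congrArg Fin.val h1
        have e2 := congrArg Fin.val h2
        simp only [Fin.val_castSucc, Fin.val_succ, Fin.val_zero, Fin.val_last] at e1 e2
        have := y.2
        rw [Fin.ext_iff, Fin.ext_iff, Fin.val_castSucc, Fin.val_succ]
        omega
      rcases hy with hy | hy
      · left; rw [hy]; exact h.1
      · right; rw [hy]; exact h.2
    · rintro (rfl | rfl)
      · exact ⟨_, h.1⟩
      · exact ⟨_, h.2⟩
  rcases Nat.eq_zero_or_pos k with hk | hk
  · subst hk
    exact ⟨1, by simp [gdet]⟩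
  obtain ⟨m, rfl⟩ : ∃ m, k = m + 1 := ⟨k - 1, by omega⟩
  have e : gdet (po w ∘ g) = (Matrix.of fun i j : Fin (m + 1) =>
      (fun l : Fin (m + 1) => ((AA s (g l.succ) - AA s (g 0) : ℚ) : ℝ)) (min i j)).det := by
    unfold gdet
    congr 1
    ext i j
    simp only [of_apply, Function.comp_apply]
    rw [inner_sub_left, inner_sub_right, inner_sub_right, inner_po hw, inner_po hw, inner_po hw,
      inner_po hw]
    have h0 : ∀ l : Fin (m + 1), g 0 ≤ g l.succ := fun l => hg.monotone (Fin.zero_le _)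
    rw [min_eq_right (h0 i), min_eq_left (h0 j), min_self, ← hg.monotone.map_min]
    have h1 : min i.succ j.succ = (min i j).succ := by
      rcases le_total i j with h | h
      · rw [min_eq_left h, min_eq_left (Fin.succ_le_succ_iff.2 h)]
      · rw [min_eq_right h, min_eq_right (Fin.succ_le_succ_iff.2 h)]
    rw [h1]
    push_cast
    ring
  rw [e, det_min (fun l : Fin (m + 1) => ((AA s (g l.succ) - AA s (g 0) : ℚ) : ℝ))]
  choose r hr using hcon
  refine ⟨r 0 * ∏ i : Fin m, r i.succ, ?_⟩
  have e1 : ((AA s (g (0 : Fin (m + 1)).succ) - AA s (g 0) : ℚ) : ℝ) = (r 0 : ℝ) ^ 2 := by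
    have := hr 0
    rw [Fin.castSucc_zero] at this
    exact_mod_cast this
  have e2 : ∀ i : Fin m, ((AA s (g i.succ.succ) - AA s (g 0) : ℚ) : ℝ) -
      ((AA s (g i.castSucc.succ) - AA s (g 0) : ℚ) : ℝ) = (r i.succ : ℝ) ^ 2 := by
    intro i
    have := hr i.succ
    rw [← Fin.succ_castSucc] at this
    have h2 : (AA s (g i.succ.succ) - AA s (g 0)) - (AA s (g i.castSucc.succ) - AA s (g 0)) =
        r i.succ ^ 2 := by linarith
    exact_mod_cast h2
  rw [e1, Finset.prod_congr rfl fun i _ => e2 i, Finset.prod_pow]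
  push_cast
  ring

/-- All faces except the edge between the first and the last vertex. -/
theorem gdet_po {s u w : ℚ} (hu : s ^ 2 - 88454025 = u ^ 2)
    (hw : s ^ 2 - 147744025 = w ^ 2) {k : ℕ} (f : Fin (k + 1) → Fin 5)
    (hf : Function.Injective f) (h04 : Set.range f ≠ {0, 4}) :
    ∃ r : ℚ, gdet (po w ∘ f) = (r : ℝ) ^ 2 := by
  have hmono : StrictMono (f ∘ Tuple.sort f) :=
    (Tuple.monotone_sort f).strictMono_of_injective (hf.comp (Equiv.injective _))
  obtain ⟨r, hr⟩ := gdet_po_mono hu hw (f ∘ Tuple.sort f) hmono (by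
    rw [Set.range_comp, Equiv.range_eq_univ, Set.image_univ]
    exact h04)
  refine ⟨r, ?_⟩
  rw [← hr, ← Function.comp_assoc, gdet_perm]

theorem affInd_po {w : ℚ} (hw0 : w ≠ 0) : AffineIndependent ℝ (po w) := by
  rw [affineIndependent_iff_linearIndependent_vsub ℝ (po w) 0]
  have h0 : po w 0 = 0 := by
    ext j
    simp [po]
  have hw1 : (w : ℝ) ≠ 0 := by exact_mod_cast hw0
  have h1 : LinearIndependent ℝ (fun i : Fin 4 => po w i.succ) := by
    rw [Fintype.linearIndependent_iff]
    intro g hg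
    have key : ∀ j : Fin 4,
        ∑ i : Fin 4, g i * (if j ≤ i then ((xx w j : ℚ) : ℝ) else 0) = 0 := by
      intro j
      have := congrArg (fun v : EuclideanSpace ℝ (Fin 4) => v j) hg
      simp only [PiLp.zero_apply] at this
      refine Eq.trans ?_ this
      simp only [po, WithLp.ofLp_sum, WithLp.ofLp_smul, Finset.sum_apply, Pi.smul_apply,
        smul_eq_mul]
      refine Finset.sum_congr rfl fun i _ => ?_
      congr 1
      simp only [Fin.lt_def, Fin.le_def, Fin.val_castSucc, Fin.val_succ, Nat.lt_succ_iff]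
    have k3 := key 3
    have k2 := key 2
    have k1 := key 1
    have k0 := key 0
    simp [Fin.sum_univ_four, xx, Fin.le_def, hw1] at k0 k1 k2 k3
    intro i
    fin_cases i <;> simp <;> linarith
  have h2 : (fun i : {x : Fin 5 // x ≠ 0} => po w i -ᵥ po w 0) =
      (fun i : Fin 4 => po w i.succ) ∘ fun i : {x : Fin 5 // x ≠ 0} => (i : Fin 5).pred i.2 := by
    funext i
    simp only [vsub_eq_sub, h0, sub_zero, Function.comp_apply, Fin.succ_pred]
  rw [h2]
  refine h1.comp _ fun i j hij => ?_
  exact Subtype.ext (Fin.pred_inj.1 hij)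

end Pool.Agent.H3.Simp
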