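import Pool.Agent.H3.Simp.Faces

/-!
# Admissible parameters which are small at finitely many primes
-/

set_option autoImplicit false

namespace Pool.Agent.H3.Simp

open Matrix

/-- `a i = 2 t / (1 + t ^ 2)` with `t = M i`. -/
def pa (M : ℕ) (i : ℕ) : ℚ := 2 * (M * i : ℚ) / (1 + (M * i : ℚ) ^ 2)

/-- `q i = (1 - t ^ 2) / (1 + t ^ 2)` with `t = M i`. -/
def pq (M : ℕ) (i : ℕ) : ℚ := (1 - (M * i : ℚ) ^ 2) / (1 + (M * i : ℚ) ^ 2)

theorem pa_den (M i : ℕ) : (0 : ℚ) < 1 + (M * i : ℚ) ^ 2 := by positivity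

theorem pa_nonneg (M i : ℕ) : 0 ≤ pa M i := by unfold pa; positivity

theorem pa_lt_one {M : ℕ} (hM : 2 ≤ M) (i : ℕ) : pa M i < 1 := by
  unfold pa
  rw [div_lt_one (pa_den M i)]
  have h : (M * i : ℚ) ≠ 1 := by
    intro h
    have h1 : M * i = 1 := by exact_mod_cast h
    have := Nat.eq_one_of_mul_eq_one_right h1
    omega
  have : 0 < (1 - (M * i : ℚ)) ^ 2 := by
    have := sub_ne_zero.2 h.symm
    positivity
  nlinarith

theorem pa_inj {M : ℕ} (hM : 2 ≤ M) : Function.Injective (pa M) := by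
  intro i j hij
  unfold pa at hij
  rw [div_eq_div_iff (pa_den M i).ne' (pa_den M j).ne'] at hij
  have h : ((M * i : ℚ) - M * j) * (1 - (M * i) * (M * j)) = 0 := by linarith
  rcases mul_eq_zero.1 h with h | h
  · have hM0 : (M : ℚ) ≠ 0 := by
      have : 0 < M := by omega
      exact_mod_cast this.ne'
    have h2 : (M : ℚ) * i = M * j := by linarith
    have h3 := mul_left_cancel₀ hM0 h2
    exact_mod_cast h3
  · exfalso
    have h2 : ((M * i) * (M * j) : ℚ) = 1 := by linarith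
    have h3 : (M * i) * (M * j) = 1 := by exact_mod_cast h2
    have h4 := Nat.eq_one_of_mul_eq_one_right (Nat.eq_one_of_mul_eq_one_right h3)
    omega

theorem pa_adm {M : ℕ} (hM : 2 ≤ M) : Adm (pa M) (pq M) where
  zero := by simp [pa]
  sq := fun k => by
    have := (pa_den M k).ne'
    unfold pa pq
    field_simp
    ring
  ne := fun i j => by
    have h1 := pa_nonneg M i
    have h2 := pa_nonneg M j
    have h3 := pa_lt_one hM i
    have h4 := pa_lt_one hM j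
    have : pa M i * pa M j < 1 := by nlinarith
    exact (sub_pos.2 this).ne'
  inj := pa_inj hM

/-- numbers close to `1` are squares in `ℚ_[l]` -/
theorem isSquare_padic {l : ℕ} [Fact l.Prime] {x : ℚ_[l]} (hx : ‖x‖ < ‖(2 : ℚ_[l])‖) :
    IsSquare (1 - x ^ 2) := by
  have h2 : ‖(2 : ℚ_[l])‖ ≤ 1 := by
    have := Padic.norm_int_le_one (p := l) 2
    exact_mod_cast this
  have hx1 : ‖x‖ ≤ 1 := hx.le.trans h2
  obtain ⟨X, hX⟩ : ∃ X : ℤ_[l], (X : ℚ_[l]) = x := ⟨⟨x, hx1⟩, rfl⟩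
  have hn : ‖X‖ < ‖(2 : ℤ_[l])‖ := by
    have e2 : ((2 : ℤ_[l]) : ℚ_[l]) = 2 := by norm_cast
    rw [PadicInt.norm_def, PadicInt.norm_def, hX, e2]
    exact hx
  have key : ‖(Polynomial.aeval (1 : ℤ_[l])) (Polynomial.X ^ 2 - Polynomial.C (1 - X ^ 2) :
      Polynomial ℤ_[l])‖ < ‖(Polynomial.aeval (1 : ℤ_[l]))
        (Polynomial.derivative (Polynomial.X ^ 2 - Polynomial.C (1 - X ^ 2) :
          Polynomial ℤ_[l]))‖ ^ 2 := by
    have e1 : (Polynomial.aeval (1 : ℤ_[l])) (Polynomial.X ^ 2 - Polynomial.C (1 - X ^ 2) :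
        Polynomial ℤ_[l]) = X ^ 2 := by
      simp
    have e2 : (Polynomial.aeval (1 : ℤ_[l]))
        (Polynomial.derivative (Polynomial.X ^ 2 - Polynomial.C (1 - X ^ 2) :
          Polynomial ℤ_[l])) = 2 := by
      rw [Polynomial.derivative_sub, Polynomial.derivative_C, sub_zero,
        Polynomial.derivative_X_pow]
      simp
    rw [e1, e2, norm_pow]
    exact pow_lt_pow_left₀ hn (norm_nonneg _) two_ne_zero
  obtain ⟨z, hz, _⟩ := hensels_lemma key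
  have hz2 : z ^ 2 = 1 - X ^ 2 := by
    have : z ^ 2 - (1 - X ^ 2) = 0 := by simpa using hz
    exact sub_eq_zero.1 this
  refine ⟨(z : ℚ_[l]), ?_⟩
  have h3 : ((z ^ 2 : ℤ_[l]) : ℚ_[l]) = ((1 - X ^ 2 : ℤ_[l]) : ℚ_[l]) := by rw [hz2]
  rw [PadicInt.coe_pow, PadicInt.coe_sub, PadicInt.coe_one, PadicInt.coe_pow, hX] at h3
  rw [← pow_two]
  exact h3.symm

theorem norm_pa {l : ℕ} [hl : Fact l.Prime] {M : ℕ} (hM : l ∣ M) (i : ℕ) :
    ‖((pa M i : ℚ) : ℚ_[l])‖ < ‖(2 : ℚ_[l])‖ ∨ pa M i = 0 := by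
  by_cases hi : i = 0
  · right
    simp [pa, hi]
  left
  have h2 : (0 : ℝ) < ‖(2 : ℚ_[l])‖ := norm_pos_iff.2 two_ne_zero
  have hMn : ‖((M * i : ℚ) : ℚ_[l])‖ < 1 := by
    have : ‖((M * i : ℕ) : ℚ_[l])‖ < 1 :=
      Padic.norm_natCast_lt_one_iff.2 (dvd_mul_of_dvd_left hM i)
    have e : ((M * i : ℚ) : ℚ_[l]) = ((M * i : ℕ) : ℚ_[l]) := by push_cast; rfl
    rw [e]
    exact this
  have hden : ‖((1 + (M * i : ℚ) ^ 2 : ℚ) : ℚ_[l])‖ = 1 := by
    rw [Rat.cast_add, Rat.cast_one, Rat.cast_pow]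
    have h1 : ‖(((M * i : ℚ) : ℚ_[l])) ^ 2‖ < 1 := by
      rw [norm_pow]
      exact pow_lt_one₀ (norm_nonneg _) hMn two_ne_zero
    have hne : ‖(1 : ℚ_[l])‖ ≠ ‖(((M * i : ℚ) : ℚ_[l])) ^ 2‖ := by
      rw [norm_one]
      exact h1.ne'
    rw [Padic.add_eq_max_of_ne hne, norm_one, max_eq_left h1.le]
  unfold pa
  rw [Rat.cast_div, norm_div, hden, div_one, Rat.cast_mul, norm_mul]
  have e2 : ((2 : ℚ) : ℚ_[l]) = 2 := by norm_cast
  rw [e2]
  calc ‖(2 : ℚ_[l])‖ * ‖((M * i : ℚ) : ℚ_[l])‖ < ‖(2 : ℚ_[l])‖ * 1 :=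
        mul_lt_mul_of_pos_left hMn h2
    _ = ‖(2 : ℚ_[l])‖ := mul_one _

end Pool.Agent.H3.Simp
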