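import Pool.Agent.H3.Simp.Gram
import Pool.Agent.H3.Simp.Cauchy

/-!
# The vertices

For rational numbers `a 0 = 0, a 1, a 2, ...` with `1 - a i ^ 2 = q i ^ 2` the vertices are the
origin and points `v 0, ..., v n` with rational coordinates and inner products `1 / (1 - a i * a j)`.
-/

set_option autoImplicit false

namespace Pool.Agent.H3.Simp

open Matrix

/-- Admissible parameters. -/
structure Adm (a q : ℕ → ℚ) : Prop where
  zero : a 0 = 0
  sq : ∀ k, 1 - a k * a k = q k ^ 2
  ne : ∀ i j, 1 - a i * a j ≠ 0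
  inj : Function.Injective a

/-- The coordinate functions. -/
def ph (a q : ℕ → ℚ) (k : ℕ) (x : ℚ) : ℚ :=
  q k / (1 - a k * x) * ∏ l ∈ Finset.range k, (x - a l) / (1 - a l * x)

theorem tele {a q : ℕ → ℚ} (hq : ∀ k, 1 - a k * a k = q k ^ 2) {x y : ℚ}
    (hx : ∀ k, 1 - a k * x ≠ 0) (hy : ∀ k, 1 - a k * y ≠ 0) (hxy : 1 - x * y ≠ 0) (m : ℕ) :
    1 / (1 - x * y) = ∑ k ∈ Finset.range m, ph a q k x * ph a q k y +
      (∏ l ∈ Finset.range m, (x - a l) / (1 - a l * x)) *
        (∏ l ∈ Finset.range m, (y - a l) / (1 - a l * y)) / (1 - x * y) := by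
  induction m with
  | zero => simp
  | succ m ih =>
    rw [ih, Finset.sum_range_succ, Finset.prod_range_succ, Finset.prod_range_succ, add_assoc]
    congr 1
    unfold ph
    set P := ∏ l ∈ Finset.range m, (x - a l) / (1 - a l * x)
    set Q := ∏ l ∈ Finset.range m, (y - a l) / (1 - a l * y)
    have e : 1 / (1 - x * y) = q m / (1 - a m * x) * (q m / (1 - a m * y)) +
        (x - a m) / (1 - a m * x) * ((y - a m) / (1 - a m * y)) / (1 - x * y) := by
      have h1 := hx m
      have h2 := hy m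
      have h3 : q m / (1 - a m * x) * (q m / (1 - a m * y)) =
          (1 - a m * a m) / ((1 - a m * x) * (1 - a m * y)) := by
        rw [hq m, div_mul_div_comm]
        ring
      have hA : (1 - a m * x) * (1 - a m * y) ≠ 0 := mul_ne_zero h1 h2
      rw [h3, div_mul_div_comm, div_div, div_add_div _ _ hA (mul_ne_zero hA hxy),
        div_eq_div_iff hxy (mul_ne_zero hA (mul_ne_zero hA hxy))]
      ring
    calc P * Q / (1 - x * y) = P * Q * (1 / (1 - x * y)) := by ring
      _ = _ := by rw [e]; ring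

/-- The vertices `v 0, ..., v n`. -/
noncomputable def vv (a q : ℕ → ℚ) (n : ℕ) (i : Fin (n + 1)) : EuclideanSpace ℝ (Fin (n + 1)) :=
  WithLp.toLp 2 fun k => ((ph a q k (a i) : ℚ) : ℝ)

/-- All vertices: the origin and `v 0, ..., v n`. -/
noncomputable def vp (a q : ℕ → ℚ) (n : ℕ) : Fin (n + 2) → EuclideanSpace ℝ (Fin (n + 1)) :=
  Fin.cons 0 (vv a q n)

variable {a q : ℕ → ℚ}

theorem inner_vv (h : Adm a q) (n : ℕ) (i j : Fin (n + 1)) :
    inner ℝ (vv a q n i) (vv a q n j) = ((1 / (1 - a i * a j) : ℚ) : ℝ) := by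
  have h1 := tele h.sq (x := a i) (y := a j) (fun k => h.ne k i) (fun k => h.ne k j) (h.ne i j)
    (n + 1)
  have h2 : ∏ l ∈ Finset.range (n + 1), (a i - a l) / (1 - a l * a i) = 0 :=
    Finset.prod_eq_zero (Finset.mem_range.2 i.2) (by rw [sub_self, zero_div])
  rw [h2, zero_mul, zero_div, add_zero] at h1
  rw [h1, PiLp.inner_apply, Finset.sum_range]
  push_cast
  refine Finset.sum_congr rfl fun k _ => ?_
  simp only [vv, RCLike.inner_apply, conj_trivial]
  ring

theorem vp_zero (n : ℕ) : vp a q n 0 = 0 := rfl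

theorem vp_succ (n : ℕ) (i : Fin (n + 1)) : vp a q n i.succ = vv a q n i := rfl

theorem linInd_vv (h : Adm a q) (n : ℕ) : LinearIndependent ℝ (vv a q n) := by
  obtain ⟨r, hr, hr2⟩ := det_sz_sq (n + 1) (fun i => a i) (fun i => q i)
    (fun i j => h.ne i j) (fun i => h.sq i) (fun i j hij => Fin.ext (h.inj hij))
  have hdet : (Matrix.of fun i j : Fin (n + 1) =>
      inner ℝ (vv a q n i) (vv a q n j)).det ≠ 0 := by
    have e : (Matrix.of fun i j : Fin (n + 1) => inner ℝ (vv a q n i) (vv a q n j)) =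
        (sz fun i : Fin (n + 1) => a i).map (Rat.castHom ℝ) := by
      ext i j
      simp only [of_apply, map_apply, sz, eq_ratCast]
      exact inner_vv h n i j
    rw [e, ← RingHom.mapMatrix_apply, ← RingHom.map_det, hr2]
    simpa using hr
  by_contra hc
  rw [Fintype.not_linearIndependent_iff] at hc
  obtain ⟨g, hg, i, hi⟩ := hc
  apply hdet
  rw [← Matrix.exists_vecMul_eq_zero_iff]
  refine ⟨g, fun h0 => hi (congrFun h0 i), ?_⟩
  ext j
  simp only [vecMul, dotProduct, of_apply, Pi.zero_apply]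
  have : inner ℝ (∑ i, g i • vv a q n i) (vv a q n j) = 0 := by rw [hg, inner_zero_left]
  rw [sum_inner] at this
  rw [← this]
  refine Finset.sum_congr rfl fun i _ => ?_
  rw [inner_smul_left]
  simp

theorem affInd_vp (h : Adm a q) (n : ℕ) : AffineIndependent ℝ (vp a q n) := by
  rw [affineIndependent_iff_linearIndependent_vsub ℝ (vp a q n) 0]
  have h1 := linInd_vv h n
  have h2 : (fun i : {x : Fin (n + 2) // x ≠ 0} => vp a q n i -ᵥ vp a q n 0) =
      vv a q n ∘ fun i : {x : Fin (n + 2) // x ≠ 0} => (i : Fin (n + 2)).pred i.2 := by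
    funext i
    simp only [vsub_eq_sub, vp_zero, sub_zero, Function.comp_apply]
    conv_lhs => rw [← Fin.succ_pred (i : Fin (n + 2)) i.2]
    rfl
  rw [h2]
  refine h1.comp _ fun i j hij => ?_
  exact Subtype.ext (Fin.pred_inj.1 hij)

end Pool.Agent.H3.Simp
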